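import Pool.Agent.T2h24.HC.AvC

/-!
Elements of `Σ⁰₄` sets which belong to no set of finite sums of a solution of Hindman's theorem.
-/

namespace Pool.Agent.T2h24.Spare.AvoidedElements

/-- The `Σ⁰₄` relation presented by `R`. -/
def Sigma4 (R : ℕ → ℕ → ℕ → ℕ → ℕ → ℕ → Bool) (j x : ℕ) : Prop :=
  ∃ a, ∀ b, ∃ t, ∀ u, R j x a b t u = true

/-- The infinite set `X` of positive integers is a solution of Hindman's theorem for the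
colouring `c`. -/
def Hindman (c : ℕ → Bool) (X : Set ℕ) : Prop :=
  X.Infinite ∧ 0 ∉ X ∧
    ∃ i, ∀ F : Finset ℕ, (F : Set ℕ) ⊆ X → F.Nonempty → c (∑ n ∈ F, n) = i

/-- The set `X` of positive integers contains multiples of all powers of `3`, and all sums of
exactly three and of exactly four elements of `X` have the same colour. -/
def ThreeFour (c : ℕ → Bool) (X : Set ℕ) : Prop :=
  (∀ N, ∃ x ∈ X, 3 ^ N ∣ x) ∧ 0 ∉ X ∧
    ∃ i, ∀ F : Finset ℕ, (F : Set ℕ) ⊆ X → (F.card = 3 ∨ F.card = 4) → c (∑ n ∈ F, n) = i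

theorem result (R : ℕ → ℕ → ℕ → ℕ → ℕ → ℕ → Bool)
    (hR : Computable (fun x : ℕ × ℕ × ℕ × ℕ × ℕ × ℕ =>
      R x.1 x.2.1 x.2.2.1 x.2.2.2.1 x.2.2.2.2.1 x.2.2.2.2.2))
    (h : ℕ → ℕ) (hmono : Monotone h) (hunb : ∀ N, ∃ x, N ≤ h x)
    (g : ℕ → ℕ → ℕ) (hg : Computable (fun x : ℕ × ℕ => g x.1 x.2))
    (hlim : ∀ x, ∃ N, ∀ s, N ≤ s → g x s = h x) :
    ∃ C : ℕ → ℕ → Bool, Computable (fun x : ℕ × ℕ => C x.1 x.2) ∧
      ∀ j x, 0 < x → Sigma4 R j x →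
        ∃ y, Sigma4 R j y ∧ y ≤ x + h x ∧ x ≤ y + h y ∧
          (∀ X, Hindman (C j) X → ∀ F : Finset ℕ, (F : Set ℕ) ⊆ X → F.Nonempty →
            ∑ n ∈ F, n ≠ y) ∧
          ∀ X, ThreeFour (C j) X → y ∉ X := by
  obtain ⟨C, hC, hC2⟩ := Pool.Agent.T2h24.AV.avoid hR hmono hunb hg hlim
  refine ⟨C, hC, fun j x hx hSx => ?_⟩
  obtain ⟨y, h1, h2, h3⟩ := hC2 j x hx hSx
  refine ⟨y, h1, h2.1, h2.2, ?_, ?_⟩
  · rintro X ⟨hX, h0, i, hi⟩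
    exact (h3 X i h0).1 ⟨hX, hi⟩
  · rintro X ⟨hX, h0, i, hi⟩
    exact (h3 X i h0).2 ⟨hX, hi⟩

end Pool.Agent.T2h24.Spare.AvoidedElements
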